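import Mathlib
import Pool.Agent.helper43.NS.Fin

/-!
# Erdős's function `f(n) = max_{m<n} (τ(m)+m-n)`: the normal order is `(log n)^{2.988…}`

Lower bound: the window of the shifts `n - k`, `k ≤ (log x)^κ`, is cut into `(log x)^c` blocks.
For primes in `(exp((log x)^(η/3)), exp((log x)^(1-η))]`, all larger than the window, a truncated
indicator of `ω = a` is a divisor sum; the mean of the product over the blocks of the squared
deviations factors up to a small error, which bounds the number of `n` for which every block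
fails.  Upper bound: the moments `∑ τ(m)^s ≪ x (log x)^(2^s-1)`.
-/

namespace Pool.Agent.Results.MP_4c4e67_nt.NormalOrder

open Finset

/-- `f(n) = max_{1 ≤ m < n} (τ(m) + m - n)` (for `n ≥ 2`; the set is finite and nonempty). -/
noncomputable def f (n : ℕ) : ℤ :=
  sSup {z : ℤ | ∃ m : ℕ, 1 ≤ m ∧ m < n ∧ z = (m.divisors.card : ℤ) + m - n}

lemma set_nonempty (n : ℕ) (hn : 2 ≤ n) :
    {z : ℤ | ∃ m : ℕ, 1 ≤ m ∧ m < n ∧ z = (m.divisors.card : ℤ) + m - n}.Nonempty :=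
  ⟨_, 1, le_rfl, by omega, rfl⟩

lemma set_finite (n : ℕ) :
    {z : ℤ | ∃ m : ℕ, 1 ≤ m ∧ m < n ∧ z = (m.divisors.card : ℤ) + m - n}.Finite := by
  have h : {z : ℤ | ∃ m : ℕ, 1 ≤ m ∧ m < n ∧ z = (m.divisors.card : ℤ) + m - n} ⊆
      ((Finset.range n).image (fun m : ℕ => (m.divisors.card : ℤ) + m - n) : Finset ℤ) := by
    rintro z ⟨m, -, hm, rfl⟩
    rw [mem_coe, mem_image]
    exact ⟨m, mem_range.mpr hm, rfl⟩
  exact (Finset.finite_toSet _).subset h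

lemma le_f (n m : ℕ) (hm : m ∈ Ico 1 n) : (m.divisors.card : ℝ) + m - n ≤ (f n : ℝ) := by
  rw [mem_Ico] at hm
  have h1 : (m.divisors.card : ℤ) + m - n ≤ f n :=
    le_csSup (set_finite n).bddAbove ⟨m, hm.1, hm.2, rfl⟩
  have h2 : (((m.divisors.card : ℤ) + m - n : ℤ) : ℝ) ≤ (f n : ℝ) := by exact_mod_cast h1
  push_cast at h2
  linarith

lemma exists_f (n : ℕ) (hn : 2 ≤ n) :
    ∃ m ∈ Ico 1 n, (f n : ℝ) = (m.divisors.card : ℝ) + m - n := by
  have h1 := Int.csSup_mem (set_nonempty n hn) (set_finite n).bddAbove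
  obtain ⟨m, hm1, hm2, hz⟩ := h1
  have h2 : f n = (m.divisors.card : ℤ) + m - n := hz
  refine ⟨m, mem_Ico.mpr ⟨hm1, hm2⟩, ?_⟩
  rw [h2]
  push_cast
  ring

/-- There is exactly one `α > 1` with `α (1 + log 2 - log α) = 1`; put `β = α log 2`, then
`2.98 < β < 2.99`, and for every `ε > 0`: (i) there is `c > 0` such that for all large `x` at most
`x exp(-(log x)^c)` of the integers `2 ≤ n ≤ x` satisfy `f(n) < (log n)^(β-ε)`; (ii) there is
`δ > 0` such that for all large `x` at most `x (log x)^(-δ)` of them satisfy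
`f(n) > (log n)^(β+ε)`. -/
theorem result :
    ∃ α : ℝ, (1 < α ∧ α * (1 + Real.log 2 - Real.log α) = 1) ∧
      (∀ t : ℝ, 1 < t → t * (1 + Real.log 2 - Real.log t) = 1 → t = α) ∧
      2.98 < α * Real.log 2 ∧ α * Real.log 2 < 2.99 ∧
      ∀ ε : ℝ, 0 < ε →
        (∃ c : ℝ, 0 < c ∧ ∃ X : ℕ, ∀ x : ℕ, X ≤ x →
          (({n : ℕ | 2 ≤ n ∧ n ≤ x ∧ (f n : ℝ) < Real.log n ^ (α * Real.log 2 - ε)}.ncard : ℕ) : ℝ)
            ≤ x * Real.exp (-(Real.log x ^ c))) ∧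
        (∃ δ : ℝ, 0 < δ ∧ ∃ X : ℕ, ∀ x : ℕ, X ≤ x →
          (({n : ℕ | 2 ≤ n ∧ n ≤ x ∧ Real.log n ^ (α * Real.log 2 + ε) < (f n : ℝ)}.ncard : ℕ) : ℝ)
            ≤ x * Real.log x ^ (-δ)) := by
  obtain ⟨α, h1, h2, h3, h4, h5⟩ := Pool.Agent.helper96.NO.exists_alpha
  refine ⟨α, ⟨h1, h2⟩, h3, h4, h5, fun ε hε => ⟨?_, ?_⟩⟩
  · obtain ⟨c, hc, X, hX⟩ := Pool.Agent.helper43.NS.lower_final α h1 h2 ε hε
    refine ⟨c, hc, X, fun x hx => ?_⟩
    have hfin : {n : ℕ | 2 ≤ n ∧ n ≤ x ∧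
        (f n : ℝ) < Real.log n ^ (α * Real.log 2 - ε)}.Finite :=
      (Set.finite_Iic x).subset (fun n hn => hn.2.1)
    rw [Set.ncard_eq_toFinset_card _ hfin]
    apply hX x hx
    intro n hn
    rw [Set.Finite.mem_toFinset] at hn
    obtain ⟨ha, hb, hc'⟩ := hn
    exact ⟨ha, hb, fun m hm => lt_of_le_of_lt (le_f n m hm) hc'⟩
  · obtain ⟨δ, hδ, X, hX⟩ := Pool.Agent.helper7.NO.normal_order α h1 h2 ε hε
    refine ⟨δ, hδ, X, fun x hx => ?_⟩
    have hfin : {n : ℕ | 2 ≤ n ∧ n ≤ x ∧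
        Real.log n ^ (α * Real.log 2 + ε) < (f n : ℝ)}.Finite :=
      (Set.finite_Iic x).subset (fun n hn => hn.2.1)
    rw [Set.ncard_eq_toFinset_card _ hfin]
    apply hX x hx
    intro n hn
    rw [Set.Finite.mem_toFinset] at hn
    obtain ⟨ha, hb, hc'⟩ := hn
    refine ⟨ha, hb, Or.inr ?_⟩
    obtain ⟨m, hm, hfm⟩ := exists_f n ha
    exact ⟨m, hm, by rw [← hfm]; exact hc'⟩

end Pool.Agent.Results.MP_4c4e67_nt.NormalOrder
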