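import Mathlib
import Pool.Agent.helper94.DivUpper
import Pool.Agent.helper94.DivMain

set_option autoImplicit false

/-!
# Erdős's function `max_{m<n} (τ(m)+m-n)`: the exceptional set is very sparse
-/

namespace Pool.Agent.Results.MP_4c4e67_nt.SparseExceptions

open Finset

/-- `f(n) = max_{1 ≤ m < n} (τ(m) + m - n)` (for `n ≥ 2`; the set is finite and nonempty). -/
noncomputable def f (n : ℕ) : ℤ :=
  sSup {z : ℤ | ∃ m : ℕ, 1 ≤ m ∧ m < n ∧ z = (m.divisors.card : ℤ) + m - n}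

lemma set_nonempty (n : ℕ) (hn : 2 ≤ n) :
    {z : ℤ | ∃ m : ℕ, 1 ≤ m ∧ m < n ∧ z = (m.divisors.card : ℤ) + m - n}.Nonempty :=
  ⟨_, 1, le_rfl, by omega, rfl⟩

lemma set_finite (n : ℕ) :
    {z : ℤ | ∃ m : ℕ, 1 ≤ m ∧ m < n ∧ z = (m.divisors.card : ℤ) + m - n}.Finite := by
  have h : {z : ℤ | ∃ m : ℕ, 1 ≤ m ∧ m < n ∧ z = (m.divisors.card : ℤ) + m - n} ⊆
      ((Finset.range n).image (fun m : ℕ => (m.divisors.card : ℤ) + m - n) : Finset ℤ) := by
    rintro z ⟨m, -, hm, rfl⟩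
    rw [mem_coe, mem_image]
    exact ⟨m, mem_range.mpr hm, rfl⟩
  exact (Finset.finite_toSet _).subset h

lemma f_le_iff (n : ℕ) (hn : 2 ≤ n) (T : ℝ) :
    (f n : ℝ) ≤ T ↔ ∀ m : ℕ, m ∈ Ico 1 n → (m.divisors.card : ℝ) + m - n ≤ T := by
  constructor
  · intro h m hm
    rw [mem_Ico] at hm
    have h1 : (m.divisors.card : ℤ) + m - n ≤ f n :=
      le_csSup (set_finite n).bddAbove ⟨m, hm.1, hm.2, rfl⟩
    have h2 : (((m.divisors.card : ℤ) + m - n : ℤ) : ℝ) ≤ (f n : ℝ) := by exact_mod_cast h1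
    push_cast at h2
    linarith
  · intro h
    have h1 := Int.csSup_mem (set_nonempty n hn) (set_finite n).bddAbove
    obtain ⟨m, hm1, hm2, hz⟩ := h1
    have h2 : f n = (m.divisors.card : ℤ) + m - n := hz
    rw [h2]
    push_cast
    exact h m (mem_Ico.mpr ⟨hm1, hm2⟩)

/-- (1) For every `0 < c < log 2 / (1 + log 2) = 0.409…` and all large `x`, at most
`x exp(-(log x)^c)` integers `2 ≤ n ≤ x` have `f(n) ≤ (log x)^c`.
(2) For all `x` and `A > 0`, at most `x / A` integers `2 ≤ n ≤ x` have `f(n) > A (1 + log x)^3`. -/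
theorem result :
    (∀ c : ℝ, 0 < c → c * (1 + Real.log 2) < Real.log 2 → ∃ X : ℕ, ∀ x : ℕ, X ≤ x →
      (({n : ℕ | 2 ≤ n ∧ n ≤ x ∧ (f n : ℝ) ≤ (Real.log x) ^ c}.ncard : ℕ) : ℝ) ≤
        x * Real.exp (-(Real.log x) ^ c)) ∧
    (∀ (x : ℕ) (A : ℝ), 0 < A →
      (({n : ℕ | 2 ≤ n ∧ n ≤ x ∧ A * (1 + Real.log x) ^ 3 < (f n : ℝ)}.ncard : ℕ) : ℝ) ≤ x / A) := by
  classical
  constructor
  · intro c hc0 hc
    obtain ⟨X, hX⟩ := Filter.eventually_atTop.mp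
      (Pool.Agent.helper94.DivMax.lower_exc c hc0 hc)
    refine ⟨X, fun x hx => ?_⟩
    have hfin : {n : ℕ | 2 ≤ n ∧ n ≤ x ∧ (f n : ℝ) ≤ (Real.log x) ^ c}.Finite :=
      (Set.finite_Iic x).subset (fun n hn => hn.2.1)
    rw [Set.ncard_eq_toFinset_card _ hfin]
    apply hX x hx
    intro n hn
    rw [Set.Finite.mem_toFinset] at hn
    obtain ⟨h1, h2, h3⟩ := hn
    exact ⟨by omega, h2, (f_le_iff n h1 _).mp h3⟩
  · intro x A hA
    have hfin : {n : ℕ | 2 ≤ n ∧ n ≤ x ∧ A * (1 + Real.log x) ^ 3 < (f n : ℝ)}.Finite :=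
      (Set.finite_Iic x).subset (fun n hn => hn.2.1)
    rw [Set.ncard_eq_toFinset_card _ hfin]
    have h1 := Pool.Agent.helper94.DivMax.upper_exc x A hA
    refine le_trans ?_ h1
    rw [Nat.cast_le]
    apply card_le_card
    intro n hn
    rw [Set.Finite.mem_toFinset] at hn
    obtain ⟨h1, h2, h3⟩ := hn
    rw [mem_filter, mem_Icc]
    refine ⟨⟨by omega, h2⟩, ?_⟩
    by_contra hcon
    push Not at hcon
    have := (f_le_iff n h1 (A * (1 + Real.log x) ^ 3)).mpr hcon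
    linarith

end Pool.Agent.Results.MP_4c4e67_nt.SparseExceptions
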